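import Pool.Agent.AT8.Stmts4
import Pool.Agent.Helper34_K9.INX

/-!
Squad AT8, row LT8: the bound for the types of defect groups.
-/

open scoped BigOperators

set_option autoImplicit false

noncomputable section

namespace Pool.Agent.PP.T8.H77

open Pool.Agent.Helper51_AWC Pool.Agent.Helper79_WRA Pool.Agent.PP Pool.Agent.PP.KF
open Pool.Agent.PP.K9 Pool.Agent.PP.K9.H97 Pool.Agent.PP.H75 Pool.Agent.PP.T3 Pool.Agent.PP.T2

attribute [local instance] Ideal.Quotient.field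

section two

variable {G : Type} [Group G]

theorem mem_two {x y : G} (h : Commute x y) {v : G} (hv : v ∈ Subgroup.closure {x, y}) :
    ∃ m k : ℤ, v = x ^ m * y ^ k := by
  induction hv using Subgroup.closure_induction with
  | mem z hz =>
    rcases hz with rfl | hz
    · exact ⟨1, 0, by simp⟩
    · rw [Set.mem_singleton_iff] at hz
      exact ⟨0, 1, by rw [hz]; simp⟩
  | one => exact ⟨0, 0, by simp⟩
  | mul a b _ _ ha hb =>
    obtain ⟨m, k, rfl⟩ := ha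
    obtain ⟨m', k', rfl⟩ := hb
    refine ⟨m + m', k + k', ?_⟩
    have e : y ^ k * x ^ m' = x ^ m' * y ^ k := (h.symm.zpow_zpow k m').eq
    calc x ^ m * y ^ k * (x ^ m' * y ^ k') = x ^ m * (y ^ k * x ^ m') * y ^ k' := by group
      _ = x ^ m * (x ^ m' * y ^ k) * y ^ k' := by rw [e]
      _ = x ^ (m + m') * y ^ (k + k') := by rw [zpow_add, zpow_add]; group
  | inv a _ ha =>
    obtain ⟨m, k, rfl⟩ := ha
    refine ⟨-m, -k, ?_⟩
    rw [mul_inv_rev, ← zpow_neg, ← zpow_neg]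
    exact (h.symm.zpow_zpow (-k) (-m)).eq

theorem card_two [Finite G] {V : Subgroup G} (hab : ∀ a ∈ V, ∀ b ∈ V, a * b = b * a) {x y : G}
    (hV : V = Subgroup.closure {x, y}) {n : ℕ} (hn : 0 < n) :
    Nat.card V ≤ n * n * Nat.card (Uw n V) := by
  have hx : x ∈ V := by rw [hV]; exact Subgroup.subset_closure (Set.mem_insert _ _)
  have hy : y ∈ V := by
    rw [hV]; exact Subgroup.subset_closure (Set.mem_insert_of_mem _ (Set.mem_singleton _))
  have hc : Commute x y := hab x hx y hy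
  have hU : Uw n V ≤ V := by
    refine (Subgroup.closure_le V).2 ?_
    rintro _ ⟨v, hv, rfl⟩
    exact V.pow_mem hv n
  let f : Fin n × Fin n × Uw n V → V := fun p =>
    ⟨x ^ (p.1 : ℕ) * y ^ (p.2.1 : ℕ) * p.2.2,
      V.mul_mem (V.mul_mem (V.pow_mem hx _) (V.pow_mem hy _)) (hU p.2.2.2)⟩
  have hf : Function.Surjective f := by
    rintro ⟨v, hv⟩
    obtain ⟨m, k, rfl⟩ := mem_two hc (by rwa [← hV])
    have hn0 : (n : ℤ) ≠ 0 := by exact_mod_cast hn.ne'
    have hnp : (0 : ℤ) < n := by exact_mod_cast hn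
    have hm := Int.emod_nonneg m hn0
    have hk := Int.emod_nonneg k hn0
    have hm' := Int.emod_lt_of_pos m hnp
    have hk' := Int.emod_lt_of_pos k hnp
    refine ⟨(⟨(m % n).toNat, by omega⟩, ⟨(k % n).toNat, by omega⟩,
      ⟨(x ^ (m / n) * y ^ (k / n)) ^ n, Subgroup.subset_closure
        ⟨_, V.mul_mem (V.zpow_mem hx _) (V.zpow_mem hy _), rfl⟩⟩), ?_⟩
    apply Subtype.ext
    change x ^ (m % n).toNat * y ^ (k % n).toNat * (x ^ (m / n) * y ^ (k / n)) ^ n =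
      x ^ m * y ^ k
    have e1 : x ^ (m % n).toNat = x ^ (m % (n : ℤ)) := by
      rw [← zpow_natCast, Int.toNat_of_nonneg hm]
    have e2 : y ^ (k % n).toNat = y ^ (k % (n : ℤ)) := by
      rw [← zpow_natCast, Int.toNat_of_nonneg hk]
    have e3 : (x ^ (m / (n : ℤ)) * y ^ (k / (n : ℤ))) ^ n =
        x ^ ((n : ℤ) * (m / n)) * y ^ ((n : ℤ) * (k / n)) := by
      rw [(hc.zpow_zpow _ _).mul_pow, ← zpow_natCast, ← zpow_natCast, ← zpow_mul, ← zpow_mul,
        mul_comm (m / (n : ℤ)), mul_comm (k / (n : ℤ))]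
    rw [e1, e2, e3]
    have e4 : y ^ (k % (n : ℤ)) * x ^ ((n : ℤ) * (m / n)) =
        x ^ ((n : ℤ) * (m / n)) * y ^ (k % (n : ℤ)) := (hc.symm.zpow_zpow _ _).eq
    calc x ^ (m % (n : ℤ)) * y ^ (k % (n : ℤ)) *
          (x ^ ((n : ℤ) * (m / n)) * y ^ ((n : ℤ) * (k / n)))
        = x ^ (m % (n : ℤ)) * (y ^ (k % (n : ℤ)) * x ^ ((n : ℤ) * (m / n))) *
          y ^ ((n : ℤ) * (k / n)) := by group
      _ = x ^ (m % (n : ℤ)) * (x ^ ((n : ℤ) * (m / n)) * y ^ (k % (n : ℤ))) *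
          y ^ ((n : ℤ) * (k / n)) := by rw [e4]
      _ = x ^ (m % (n : ℤ) + (n : ℤ) * (m / n)) * y ^ (k % (n : ℤ) + (n : ℤ) * (k / n)) := by
          rw [zpow_add, zpow_add]; group
      _ = x ^ m * y ^ k := by rw [Int.emod_add_mul_ediv, Int.emod_add_mul_ediv]
  have h := Nat.card_le_card_of_surjective f hf
  rw [Nat.card_prod, Nat.card_prod, Nat.card_fin, ← mul_assoc] at h
  exact h

end two

theorem lt8 (rtr : RtrStmt) (hkx : HkxStmt) (lb8 : Lb8Stmt) (xct : XctStmt) (lfr : LfrStmt) :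
    Lt8Stmt := by
  intro ℓ _ M _ hM hl2 G _ _ e V γ ld a hty
  have hF : GoodF ℓ (FF M) := H50.fld ℓ Fact.out M hM
  have hlp : ℓ.Prime := Fact.out
  have hix : ¬ ℓ ∣ ix V γ :=
    K9.H34.inx ℓ M hM G e ld.blk V ld.tp ld.ab γ ld.gam.supp ld.gam.blk ld.und
  rcases hty with ⟨k, h⟩ | h | h
  · -- the first type
    have ha : 0 < a := h.pos.trans_le h.le
    obtain ⟨y, hy⟩ := (rtr ℓ (FF M) hF G e V γ ld hix a h.exp).1 ha h.ei
    have h1 := hkx ℓ (FF M) hF G e V γ ld hix a k h.pos ha h.exp ⟨y, hy⟩ h.hk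
    have hyk : Rk ℓ a k V γ y := by
      refine ⟨hy.mem, hy.ord, fun t ht v hv he => ?_⟩
      refine hy.reg t ht (v ^ ℓ ^ (k - 1)) (V.pow_mem hv _) ?_
      rw [he, ← pow_mul, ← pow_add]
      congr 3
      have := h.pos
      omega
    exact lb8 ℓ M hM hl2 G e V γ ld a k h.pos h.le h.exp ⟨y, hyk⟩ h1 h.sz
  · -- the second type
    have ha := h.le
    obtain ⟨x, z, hV⟩ := h.gen
    obtain ⟨y, hy⟩ := (rtr ℓ (FF M) hF G e V γ ld hix a h.exp).2 (by omega) ⟨x, z, hV⟩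
    have h2 := xct ℓ (FF M) hF G e V γ ld hix a 2 (by norm_num) (by omega) h.exp y hy
    have h3 := card_two ld.ab hV (pow_pos hlp.pos 2)
    have e4 : ℓ ^ 2 * ℓ ^ 2 = ℓ ^ 4 := by rw [← pow_add]
    rw [e4] at h3
    refine lb8 ℓ M hM hl2 G e V γ ld a 2 (by norm_num) (by omega) h.exp ⟨y, hy⟩ ?_ ?_
    · calc ix V γ * Nat.card V ≤ ix V γ * (ℓ ^ 4 * Nat.card (Uw (ℓ ^ 2) V)) :=
            Nat.mul_le_mul_left _ h3
        _ = ℓ ^ (2 * 2) * (ix V γ * Nat.card (Uw (ℓ ^ 2) V)) := by ring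
        _ ≤ ℓ ^ (2 * 2) * {u | Rg V γ u}.ncard := Nat.mul_le_mul_left _ h2
    · refine h3.trans (Nat.mul_le_mul_right _ (Nat.pow_le_pow_right hlp.pos ?_))
      omega
  · -- the third type
    have hne : V ≠ ⊥ := by
      rintro rfl
      have h1 := h.exp
      rw [Monoid.exp_eq_one_iff.2 inferInstance] at h1
      exact (Nat.one_lt_pow h.pos.ne' hlp.one_lt).ne h1
    exact (lfr ℓ M hM hl2 G e V γ ld hne h.fr).trans h.ix

end Pool.Agent.PP.T8.H77
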